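import Pool.Agent.Y723.Z8.Stm
import Pool.Agent.W583.RT.FSB

/-!
Z8-FSG: sums over tuples of coprime divisors with characters and signed weights (helper260).
-/

set_option autoImplicit false

namespace Pool.Agent.Y260.Z8

open Finset Pool.Agent.W262.RK Pool.Agent.W307.RT Pool.Agent.W583.RT Pool.Agent.TH841.PT
  Pool.Agent.Y723.Z8

set_option linter.unusedSectionVars false

theorem fsg : S_FSG := by
  classical
  intro ι _ _ c
  set n : ℕ := Fintype.card ι with hn
  refine ⟨2 * c + 2 * n + 2, n, fun z hz => ⟨Real.exp (n * c), Real.one_le_exp (by positivity), ?_⟩⟩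
  intro σ hσ y R W ψ φ B hzy hR hψ1 hψ hφ hψφ hB
  -- the primes
  set T : Finset ℕ := (PS z y).filter (fun p => ¬ p ∣ R) with hT
  set T' : Finset ℕ := (PS z y).filter (fun p => p ∣ R) with hT'
  have hTp : ∀ p ∈ T, p.Prime := fun p hp => (mem_PS.1 (mem_filter.1 hp).1).2
  have hdvd : (∏ p ∈ T, p) ∣ PP z y := prod_dvd_prod_of_subset _ _ _ (filter_subset _ _)
  have hsq := PP_squarefree z y
  have hpr : ∀ p : ℕ, p.Prime → (p ∣ ∏ q ∈ T, q ↔ p ∈ T) := by
    intro p hp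
    constructor
    · intro h
      obtain ⟨q, hq, hpq⟩ := (hp.prime.dvd_finsetProd_iff _).1 h
      rwa [(Nat.prime_dvd_prime_iff_eq hp (hTp q hq)).1 hpq]
    · intro h
      exact dvd_prod_of_mem _ h
  -- divisors coprime to `R`
  have hcop : ∀ d : ℕ, (d ∣ PP z y ∧ d.Coprime R) ↔ d ∣ ∏ p ∈ T, p := by
    intro d
    constructor
    · rintro ⟨h1, h2⟩
      have hd := hsq.squarefree_of_dvd h1
      rw [← Nat.prod_primeFactors_of_squarefree hd]
      refine prod_dvd_prod_of_subset _ _ _ fun p hp => ?_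
      have hp' := Nat.mem_primeFactors.1 hp
      rw [hT, mem_filter]
      refine ⟨(prime_dvd_PP hp'.1).1 (hp'.2.1.trans h1), fun h => ?_⟩
      exact Nat.Prime.not_coprime_iff_dvd.2 ⟨p, hp'.1, hp'.2.1, h⟩ h2
    · intro h
      refine ⟨h.trans hdvd, Nat.coprime_of_dvd fun k hk h2 h3 => ?_⟩
      exact (mem_filter.1 ((hpr k hk).1 (h2.trans h))).2 h3
  have hE := euler T hTp W (fun i m => gp (σ i) c m * ψ i m)
    (fun i hi => by
      show gp (σ i) c 1 * ψ i 1 = 1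
      rw [hψ1 i hi, mul_one]
      simp [gp])
    (by
      intro i hi m k hmk
      have h1 := hmk.trans hdvd
      have h2 : m.Coprime k := Nat.coprime_of_squarefree_mul (hsq.squarefree_of_dvd h1)
      show gp (σ i) c (m * k) * ψ i (m * k) = gp (σ i) c m * ψ i m * (gp (σ i) c k * ψ i k)
      rw [hψ i hi m k h1]
      have h3 : gp (σ i) c (m * k) = gp (σ i) c m * gp (σ i) c k := by
        unfold gp
        rw [Nat.Coprime.primeFactors_mul h2, prod_union h2.disjoint_primeFactors]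
      rw [h3]
      ring)
    ((Tup ι z y).filter (fun d => (∀ i, (d i).Coprime R) ∧ ∀ i, i ∉ W → d i = 1))
    (by
      intro d
      rw [mem_filter]
      unfold Tup
      rw [mem_filter, Fintype.mem_piFinset]
      constructor
      · rintro ⟨⟨h1, h2⟩, h3, h4⟩
        exact ⟨fun i => (hcop _).1 ⟨Nat.dvd_of_mem_divisors (h1 i), h3 i⟩, h2, h4⟩
      · rintro ⟨h1, h2, h3⟩
        exact ⟨⟨fun i => Nat.mem_divisors.2 ⟨((hcop _).2 (h1 i)).1, PP_ne_zero _ _⟩, h2⟩,
          fun i => ((hcop _).2 (h1 i)).2, h3⟩)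
  rw [hE]
  -- the factors
  have hnW : (W.card : ℝ) ≤ n := by exact_mod_cast card_le_univ W
  have hpz : ∀ p ∈ PS z y, 2 * (c : ℝ) + 2 * n + 2 < (p : ℝ) := by
    intro p hp
    have h1 := (mem_PS.1 hp).1.1
    have h2 : 2 * c + 2 * n + 2 < p := by omega
    exact_mod_cast h2
  have hn0 : (0 : ℝ) ≤ n := Nat.cast_nonneg _
  have hc0 : (0 : ℝ) ≤ c := Nat.cast_nonneg _
  obtain ⟨θ, hθd⟩ : ∃ θ : ι → ℕ → ℝ, ∀ i p, θ i p = σ i p * φ i p := ⟨_, fun _ _ => rfl⟩
  have hθ : ∀ i ∈ W, ∀ p, |θ i p| ≤ 1 / 2 := by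
    intro i hi p
    rw [hθd, abs_mul]
    calc |σ i p| * |φ i p| ≤ 1 / 2 * 1 :=
          mul_le_mul (hσ i p) (hφ i hi p) (abs_nonneg _) (by norm_num)
      _ = 1 / 2 := mul_one _
  have hB' : ∀ i ∈ W, ∑ p ∈ PS z y, θ i p / (p : ℝ) ≤ B i := by
    intro i hi
    refine le_trans (le_of_eq (sum_congr rfl fun p _ => by rw [hθd])) (hB i hi)
  have hterm : ∀ p ∈ T, ∀ i ∈ W, gp (σ i) c p * ψ i p = θ i p / ((p : ℝ) - c) := by
    intro p hp i hi
    have hp' := mem_filter.1 hp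
    rw [hψφ i hi p hp'.1 hp'.2, hθd]
    unfold gp
    rw [(hTp p hp).primeFactors, prod_singleton]
    ring
  have hfac : ∀ p ∈ T, (1 + ∑ i ∈ W, gp (σ i) c p * ψ i p) =
      1 + ∑ i ∈ W, θ i p / ((p : ℝ) - c) := fun p hp => by
    rw [sum_congr rfl (hterm p hp)]
  have hpos : ∀ p ∈ T, 0 ≤ 1 + ∑ i ∈ W, θ i p / ((p : ℝ) - c) := by
    intro p hp
    have hp1 := hpz p (mem_filter.1 hp).1
    have hpc : 0 < (p : ℝ) - c := by linarith
    have h1 : ∀ i ∈ W, -((1 / 2) / ((p : ℝ) - c)) ≤ θ i p / ((p : ℝ) - c) := by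
      intro i hi
      have h2 := (abs_le.1 (hθ i hi p)).1
      rw [← neg_div]
      exact div_le_div_of_nonneg_right h2 hpc.le
    have h5 := sum_le_sum h1
    rw [sum_const, nsmul_eq_mul] at h5
    have h6 : (W.card : ℝ) * ((1 / 2) / ((p : ℝ) - c)) ≤ 1 := by
      rw [← mul_div_assoc, div_le_one hpc]
      linarith
    linarith
  have hprod : ∏ p ∈ T, (1 + ∑ i ∈ W, gp (σ i) c p * ψ i p) =
      ∏ p ∈ T, (1 + ∑ i ∈ W, θ i p / ((p : ℝ) - c)) := prod_congr rfl hfac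
  rw [hprod, abs_of_nonneg (prod_nonneg hpos)]
  have hle1 : ∏ p ∈ T, (1 + ∑ i ∈ W, θ i p / ((p : ℝ) - c)) ≤
      Real.exp (∑ i ∈ W, ∑ p ∈ T, θ i p / ((p : ℝ) - c)) := by
    rw [sum_comm, Real.exp_sum]
    refine prod_le_prod hpos fun p _ => ?_
    have := Real.add_one_le_exp (∑ i ∈ W, θ i p / ((p : ℝ) - c))
    linarith
  refine hle1.trans ?_
  -- the exponent
  have hsum1 : ∀ i ∈ W, ∑ p ∈ T, θ i p / ((p : ℝ) - c) ≤
      B i + ((1 / 2) * ∑ p ∈ T', 1 / (p : ℝ) + c) := by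
    intro i hi
    have h1 : ∑ p ∈ PS z y, θ i p / (p : ℝ) = ∑ p ∈ T', θ i p / (p : ℝ) +
        ∑ p ∈ T, θ i p / (p : ℝ) := (sum_filter_add_sum_filter_not _ _ _).symm
    have h2 : -((1 / 2) * ∑ p ∈ T', 1 / (p : ℝ)) ≤ ∑ p ∈ T', θ i p / (p : ℝ) := by
      rw [mul_sum, ← sum_neg_distrib]
      refine sum_le_sum fun p _ => ?_
      rw [mul_one_div, ← neg_div]
      exact div_le_div_of_nonneg_right (abs_le.1 (hθ i hi p)).1 (Nat.cast_nonneg _)
    have h3 : ∑ p ∈ T, θ i p / ((p : ℝ) - c) - ∑ p ∈ T, θ i p / (p : ℝ) ≤ c := by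
      rw [← sum_sub_distrib]
      calc ∑ p ∈ T, (θ i p / ((p : ℝ) - c) - θ i p / (p : ℝ))
          ≤ ∑ p ∈ T, c * (1 / (p : ℝ) ^ 2) := by
            refine sum_le_sum fun p hp => ?_
            have hp1 := hpz p (mem_filter.1 hp).1
            have hpc : 0 < (p : ℝ) - c := by linarith
            have hp0 : 0 < (p : ℝ) := by linarith
            have e1 : θ i p / ((p : ℝ) - c) - θ i p / (p : ℝ) =
                θ i p * (c / ((p : ℝ) * ((p : ℝ) - c))) := by
              field_simp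
              ring
            rw [e1]
            have h4 : θ i p * (c / ((p : ℝ) * ((p : ℝ) - c))) ≤
                (1 / 2) * (c / ((p : ℝ) * ((p : ℝ) - c))) :=
              mul_le_mul_of_nonneg_right (abs_le.1 (hθ i hi p)).2 (by positivity)
            refine h4.trans ?_
            rw [← mul_div_assoc, mul_one_div, div_le_div_iff₀ (by positivity) (by positivity)]
            nlinarith [mul_nonneg hc0 hp0.le, mul_nonneg (mul_nonneg hc0 hp0.le)
              (by linarith : (0 : ℝ) ≤ (p : ℝ) - 2 * c)]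
        _ = c * ∑ p ∈ T, 1 / (p : ℝ) ^ 2 := by rw [mul_sum]
        _ ≤ c * 1 := by
            refine mul_le_mul_of_nonneg_left ?_ (by positivity)
            refine le_trans ?_ (tail_sq z y (by omega))
            exact sum_le_sum_of_subset_of_nonneg (filter_subset _ _) (fun _ _ _ => by positivity)
        _ = c := mul_one _
    have h4 := hB' i hi
    linarith
  have hE1 : ∑ i ∈ W, ∑ p ∈ T, θ i p / ((p : ℝ) - c) ≤
      n * c + ∑ i ∈ W, B i + ∑ p ∈ T', (n / 2) * (1 / (p : ℝ)) := by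
    have h0 : 0 ≤ ∑ p ∈ T', 1 / (p : ℝ) := sum_nonneg fun _ _ => by positivity
    calc ∑ i ∈ W, ∑ p ∈ T, θ i p / ((p : ℝ) - c)
        ≤ ∑ i ∈ W, (B i + ((1 / 2) * ∑ p ∈ T', 1 / (p : ℝ) + c)) :=
          sum_le_sum fun i hi => hsum1 i hi
      _ = ∑ i ∈ W, B i + W.card * ((1 / 2) * ∑ p ∈ T', 1 / (p : ℝ) + c) := by
          rw [sum_add_distrib, sum_const, nsmul_eq_mul]
      _ ≤ ∑ i ∈ W, B i + n * ((1 / 2) * ∑ p ∈ T', 1 / (p : ℝ) + c) := by
          have := mul_le_mul_of_nonneg_right hnW (by positivity :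
            (0 : ℝ) ≤ (1 / 2) * ∑ p ∈ T', 1 / (p : ℝ) + c)
          linarith
      _ = _ := by rw [← mul_sum]; ring
  refine (Real.exp_le_exp.2 hE1).trans ?_
  have hsub : T' ⊆ R.primeFactors := by
    intro p hp
    have hp' := mem_filter.1 hp
    exact Nat.mem_primeFactors.2 ⟨(mem_PS.1 hp'.1).2, hp'.2, hR⟩
  have hfin : Real.exp (∑ p ∈ T', (n / 2) * (1 / (p : ℝ))) ≤
      ∏ p ∈ R.primeFactors, (1 + (n : ℝ) / (p : ℝ)) := by
    rw [Real.exp_sum]
    calc ∏ p ∈ T', Real.exp (n / 2 * (1 / (p : ℝ))) ≤ ∏ p ∈ T', (1 + (n : ℝ) / (p : ℝ)) := by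
          refine prod_le_prod (fun _ _ => (Real.exp_pos _).le) fun p hp => ?_
          have hp1 := hpz p (mem_filter.1 hp).1
          have hp0 : 0 < (p : ℝ) := by linarith
          refine (exp_le_one_add (by positivity) ?_).trans (le_of_eq (by ring))
          rw [mul_one_div, div_le_one hp0]
          linarith
      _ ≤ (∏ p ∈ R.primeFactors \ T', (1 + (n : ℝ) / (p : ℝ))) *
            ∏ p ∈ T', (1 + (n : ℝ) / (p : ℝ)) := by
          refine le_mul_of_one_le_left (prod_nonneg fun _ _ => by positivity) ?_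
          refine one_le_prod fun p _ => ?_
          have : (0 : ℝ) ≤ (n : ℝ) / (p : ℝ) := by positivity
          show (1 : ℝ) ≤ 1 + (n : ℝ) / (p : ℝ)
          linarith
      _ = ∏ p ∈ R.primeFactors, (1 + (n : ℝ) / (p : ℝ)) := prod_sdiff hsub
  rw [Real.exp_add, Real.exp_add]
  exact mul_le_mul_of_nonneg_left hfin (by positivity)

end Pool.Agent.Y260.Z8
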